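import Pool.Agent.Helper6.LPB.St

set_option autoImplicit false

namespace Pool.Agent.Helper96.LPB

open Finset
open Pool.Agent.Helper18.TR (StFL)
open Pool.Agent.Helper15.AB (StMT)
open Pool.Agent.Helper60.LZ (js bp bl StBAD)
open Pool.Agent.Helper98.LM (QQ)
open Pool.Agent.Helper6.LP Pool.Agent.Helper6.LPB

private lemma memQ (z l : ℕ) (h : l ∈ QQ 32 z) : l.Prime ∧ 32 < l ∧ l ≤ z := by
  unfold QQ at h
  rw [mem_filter, mem_Ioc] at h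
  exact ⟨h.2, h.1.1, h.1.2⟩

private lemma sumsq (z : ℕ) : ∑ l ∈ QQ 32 z, 20 / (l : ℝ) ^ 2 ≤ 20 := by
  have h1 : ∑ l ∈ QQ 32 z, 20 / (l : ℝ) ^ 2 ≤ ∑ l ∈ Ioc 32 z, 20 / (l : ℝ) ^ 2 := by
    unfold QQ
    exact sum_le_sum_of_subset_of_nonneg (filter_subset _ _) fun _ _ _ => by positivity
  refine h1.trans ?_
  rcases Nat.lt_or_ge z 32 with h | h
  · rw [Ioc_eq_empty (by omega)]
    simp
  · have h2 := sum_Ioc_inv_sq_le_sub (α := ℝ) (k := 32) (n := z) (by norm_num) h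
    have h3 : ∑ l ∈ Ioc 32 z, 20 / (l : ℝ) ^ 2 = 20 * ∑ l ∈ Ioc 32 z, ((l : ℝ) ^ 2)⁻¹ := by
      rw [mul_sum]
      exact sum_congr rfl fun l _ => by rw [div_eq_mul_inv]
    rw [h3]
    have h4 : (0 : ℝ) ≤ (z : ℝ)⁻¹ := by positivity
    have h5 : ((32 : ℕ) : ℝ)⁻¹ ≤ 1 := by norm_num
    linarith

private lemma mert (C : ℝ) (hC : ∀ y : ℝ, 3 ≤ y →
    |∑ l ∈ (Icc 1 ⌊y⌋₊).filter Nat.Prime, (1 : ℝ) / l - Real.log (Real.log y)| ≤ C) (z : ℕ) (hz : 3 ≤ z) :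
    Real.log (Real.log z) - C - 32 ≤ ∑ l ∈ QQ 32 z, (1 : ℝ) / l := by
  have h := hC z (by exact_mod_cast hz)
  rw [Nat.floor_natCast, abs_le] at h
  have h1 : ∑ l ∈ (Icc 1 z).filter Nat.Prime, (1 : ℝ) / l ≤
      ∑ l ∈ QQ 32 z ∪ Icc 1 32, (1 : ℝ) / l := by
    refine sum_le_sum_of_subset_of_nonneg ?_ fun _ _ _ => by positivity
    intro l hl
    rw [mem_filter, mem_Icc] at hl
    rw [mem_union]
    rcases Nat.lt_or_ge 32 l with h2 | h2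
    · left
      unfold QQ
      rw [mem_filter, mem_Ioc]
      exact ⟨⟨h2, hl.1.2⟩, hl.2⟩
    · right
      rw [mem_Icc]
      exact ⟨hl.1.1, h2⟩
  have h2 : ∑ l ∈ QQ 32 z ∪ Icc 1 32, (1 : ℝ) / l ≤
      ∑ l ∈ QQ 32 z, (1 : ℝ) / l + ∑ l ∈ (Icc 1 32 : Finset ℕ), (1 : ℝ) / l := by
    have h3 := sum_union_inter (s₁ := QQ 32 z) (s₂ := Icc 1 32) (f := fun l : ℕ => (1 : ℝ) / l)
    have h4 : 0 ≤ ∑ l ∈ QQ 32 z ∩ Icc 1 32, (1 : ℝ) / l := sum_nonneg fun _ _ => by positivity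
    linarith
  have h3 : ∑ l ∈ (Icc 1 32 : Finset ℕ), (1 : ℝ) / l ≤ 32 := by
    have : ∑ l ∈ (Icc 1 32 : Finset ℕ), (1 : ℝ) / l ≤ ∑ _l ∈ (Icc 1 32 : Finset ℕ), (1 : ℝ) := by
      refine sum_le_sum fun l hl => ?_
      rw [mem_Icc] at hl
      have : (1 : ℝ) ≤ l := by exact_mod_cast hl.1
      rw [div_le_one (by linarith)]
      exact this
    refine this.trans ?_
    simp
  linarith [h.1]

private lemma prodb (hN : StNLB) (C : ℝ) (hC : ∀ y : ℝ, 3 ≤ y →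
    |∑ l ∈ (Icc 1 ⌊y⌋₊).filter Nat.Prime, (1 : ℝ) / l - Real.log (Real.log y)| ≤ C) (z : ℕ) (hz : 3 ≤ z) :
    ∏ l ∈ QQ 32 z, (1 - (NN l : ℝ) / (l : ℝ) ^ 2) ≤ Real.exp (2 * C + 84) / Real.log z ^ 2 := by
  have hz' : (3 : ℝ) ≤ z := by exact_mod_cast hz
  have hlog : 0 < Real.log z := Real.log_pos (by linarith)
  have h1 : ∏ l ∈ QQ 32 z, (1 - (NN l : ℝ) / (l : ℝ) ^ 2) ≤
      ∏ l ∈ QQ 32 z, Real.exp (-((NN l : ℝ) / (l : ℝ) ^ 2)) := by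
    refine prod_le_prod ?_ ?_
    · intro l hl
      obtain ⟨q1, q2, -⟩ := memQ z l hl
      have hl' : (32 : ℝ) < l := by exact_mod_cast q2
      have h2 := (hN l q1 q2).2
      rw [sub_nonneg, div_le_one (by positivity)]
      nlinarith
    · intro l _
      have := Real.add_one_le_exp (-((NN l : ℝ) / (l : ℝ) ^ 2))
      linarith
  refine h1.trans ?_
  rw [← Real.exp_sum]
  have h2 : ∑ l ∈ QQ 32 z, -((NN l : ℝ) / (l : ℝ) ^ 2) ≤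
      ∑ l ∈ QQ 32 z, (-(2 * (1 / (l : ℝ))) + 20 / (l : ℝ) ^ 2) := by
    refine sum_le_sum fun l hl => ?_
    obtain ⟨q1, q2, -⟩ := memQ z l hl
    have hl' : (32 : ℝ) < l := by exact_mod_cast q2
    have h2 := (hN l q1 q2).1
    have h3 : (2 * (l : ℝ) - 20) / (l : ℝ) ^ 2 ≤ (NN l : ℝ) / (l : ℝ) ^ 2 :=
      div_le_div_of_nonneg_right h2 (by positivity)
    have h4 : (2 * (l : ℝ) - 20) / (l : ℝ) ^ 2 = 2 * (1 / (l : ℝ)) - 20 / (l : ℝ) ^ 2 := by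
      field_simp
    linarith
  have h3 := mert C hC z hz
  have h4 := sumsq z
  have e2 : ∑ l ∈ QQ 32 z, (-(2 * (1 / (l : ℝ))) + 20 / (l : ℝ) ^ 2) =
      -(2 * ∑ l ∈ QQ 32 z, 1 / (l : ℝ)) + ∑ l ∈ QQ 32 z, 20 / (l : ℝ) ^ 2 := by
    rw [sum_add_distrib, sum_neg_distrib, mul_sum]
  rw [e2] at h2
  have h5 : ∑ l ∈ QQ 32 z, -((NN l : ℝ) / (l : ℝ) ^ 2) ≤
      (2 * C + 84) - 2 * Real.log (Real.log z) := by linarith
  refine (Real.exp_le_exp.2 h5).trans (le_of_eq ?_)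
  rw [Real.exp_sub]
  congr 1
  rw [mul_comm, Real.exp_mul, Real.exp_log hlog]
  exact_mod_cast Real.rpow_natCast (Real.log z) 2

theorem hAVS (hF : StFL) (hO : StONE) (hN : StNLB) (hC : StCTT) (hM : StMT) : StAVS := by
  classical
  obtain ⟨C₀, hC₀, hM⟩ := hM
  obtain ⟨B₁, hF⟩ := hF 3 1 (by norm_num) (by norm_num)
  obtain ⟨B₂, hO⟩ := hO (1 / 2) (by norm_num)
  refine ⟨4 * Real.exp (2 * C₀ + 84) + 8, ?_, 3 * B₁ + B₂ + 2, by omega, ?_⟩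
  · have := Real.exp_pos (2 * C₀ + 84)
    linarith
  intro z K hz hK
  have hz' : (3 : ℝ) ≤ z := by exact_mod_cast hz
  have hK1 : 1 ≤ K := le_trans (Nat.one_le_pow _ _ (by omega)) hK
  have hK' : (1 : ℝ) ≤ K := by exact_mod_cast hK1
  have hlog : 0 < Real.log z := Real.log_pos (by linarith)
  have hlogz : Real.log z ≤ z := (Real.log_le_sub_one_of_pos (by linarith)).trans (by linarith)
  -- pairs
  set P : Finset (ℕ × ℕ) := ((Icc 1 K) ×ˢ (Icc 1 K)).filter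
    (fun x : ℕ × ℕ => ∀ l ∈ QQ 32 z, ¬ (l : ℤ) ∣ ff x.1 x.2) with hP
  set Pr : ℝ := ∏ l ∈ QQ 32 z, (1 - (NN l : ℝ) / (l : ℝ) ^ 2) with hPr
  have a1 := hF z (by omega) (QQ 32 z) (fun l hl => ⟨(memQ z l hl).1, (memQ z l hl).2.2⟩)
    (fun l => (NN l : ℝ) / (l : ℝ) ^ 2) (by
      intro l hl
      obtain ⟨q1, q2, -⟩ := memQ z l hl
      have hl' : (32 : ℝ) < l := by exact_mod_cast q2
      have h2 := (hN l q1 q2).2
      have h3 : (NN l : ℝ) / (l : ℝ) ^ 2 ≤ 3 / l := by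
        rw [div_le_div_iff₀ (by positivity) (by positivity)]
        nlinarith
      refine ⟨by positivity, h3, h3.trans ?_⟩
      rw [div_le_div_iff₀ (by positivity) (by norm_num)]
      linarith)
    (ℕ × ℕ) ((Icc 1 K) ×ˢ (Icc 1 K)) (fun l x => (l : ℤ) ∣ ff x.1 x.2) ((K : ℝ) ^ 2)
    (3 * K * ((z : ℝ) ^ B₁) ^ 2) (by positivity) (by positivity) (by
      intro T hT hTz
      refine (hC K T hK1 fun l hl => (memQ z l (hT hl)).1).trans ?_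
      have h1 : (∏ l ∈ T, (l : ℝ)) ≤ (z : ℝ) ^ B₁ := by
        have h0 : ((∏ p ∈ T, p : ℕ) : ℝ) ≤ ((z ^ B₁ : ℕ) : ℝ) := Nat.cast_le.2 hTz
        rw [Nat.cast_prod, Nat.cast_pow] at h0
        exact h0
      have h2 : 0 ≤ ∏ l ∈ T, (l : ℝ) := prod_nonneg fun _ _ => Nat.cast_nonneg _
      exact mul_le_mul_of_nonneg_left (pow_le_pow_left₀ h2 h1 2) (by positivity))
  have a2 : (P.card : ℝ) ≤ 2 * ((K : ℝ) ^ 2 * Pr) + (z : ℝ) ^ B₁ * (3 * K * ((z : ℝ) ^ B₁) ^ 2) := by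
    have := (abs_le.1 a1).2
    have h : (P.card : ℝ) = ((((Icc 1 K) ×ˢ (Icc 1 K)).filter
      (fun a : ℕ × ℕ => ∀ p ∈ QQ 32 z, ¬ (p : ℤ) ∣ ff a.1 a.2)).card : ℝ) := rfl
    rw [h]
    linarith
  -- rows
  have b1 : ∀ y ∈ Icc 5 K, (K : ℝ) * VV 32 z 1 0 y ≤
      2 * (((Icc 1 K).filter (fun m : ℕ => ∀ l ∈ QQ 32 z, ¬ (l : ℤ) ∣ ff m y)).card : ℝ) +
        2 * (z : ℝ) ^ B₂ := by
    intro y hy
    rw [mem_Icc] at hy
    have h := hO 32 1 0 y z K (by norm_num) (by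
      intro l hl hd
      have := Nat.le_of_dvd one_pos hd
      omega) (by omega) (by omega)
    have e : (Icc 1 K).filter (fun m : ℕ => Sf 32 z (((0 : ℕ) : ℤ) + ((1 : ℕ) : ℤ) * m) y) =
        (Icc 1 K).filter (fun m : ℕ => ∀ l ∈ QQ 32 z, ¬ (l : ℤ) ∣ ff m y) := by
      refine filter_congr fun m _ => ?_
      unfold Sf
      simp only [Nat.cast_zero, Nat.cast_one, zero_add, one_mul]
    rw [e] at h
    have := (abs_le.1 h).1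
    linarith
  have b2 : ∑ y ∈ Icc 5 K,
      (((Icc 1 K).filter (fun m : ℕ => ∀ l ∈ QQ 32 z, ¬ (l : ℤ) ∣ ff m y)).card : ℝ) ≤ P.card := by
    have h : ∑ y ∈ Icc 5 K,
        ((Icc 1 K).filter (fun m : ℕ => ∀ l ∈ QQ 32 z, ¬ (l : ℤ) ∣ ff m y)).card ≤ P.card := by
      rw [card_eq_sum_card_fiberwise (s := P) (t := Icc 1 K) (f := Prod.snd) (by
        intro x hx
        have := mem_filter.1 (mem_coe.1 hx)
        exact mem_coe.2 (mem_product.1 this.1).2)]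
      refine (sum_le_sum fun y hy => ?_).trans (sum_le_sum_of_subset (Icc_subset_Icc_left (by norm_num)))
      refine card_le_card_of_injOn (fun m => (m, y)) ?_ ?_
      · intro m hm
        have hm := mem_filter.1 (mem_coe.1 hm)
        rw [mem_Icc] at hy
        refine mem_coe.2 (mem_filter.2 ⟨mem_filter.2 ⟨mem_product.2 ⟨hm.1, ?_⟩, hm.2⟩, rfl⟩)
        exact mem_Icc.2 ⟨le_trans (by norm_num) hy.1, hy.2⟩
      · intro m _ m' _ h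
        exact (Prod.ext_iff.1 h).1
    exact_mod_cast h
  have b3 : (K : ℝ) * ∑ y ∈ Icc 5 K, VV 32 z 1 0 y ≤ 2 * (P.card : ℝ) + 2 * K * (z : ℝ) ^ B₂ := by
    rw [mul_sum]
    refine (sum_le_sum b1).trans ?_
    rw [sum_add_distrib, ← mul_sum, sum_const, nsmul_eq_mul]
    have h1 : (((Icc 5 K).card : ℕ) : ℝ) ≤ K := by
      rw [Nat.card_Icc]
      exact_mod_cast (by omega : K + 1 - 5 ≤ K)
    have h2 : (((Icc 5 K).card : ℕ) : ℝ) * (2 * (z : ℝ) ^ B₂) ≤ K * (2 * (z : ℝ) ^ B₂) :=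
      mul_le_mul_of_nonneg_right h1 (by positivity)
    linarith
  have c1 : (K : ℝ) * ∑ y ∈ Icc 5 K, VV 32 z 1 0 y ≤
      K * (4 * (K * Pr) + 6 * (z : ℝ) ^ (3 * B₁) + 2 * (z : ℝ) ^ B₂) := by
    have e1 : (z : ℝ) ^ (3 * B₁) = (z : ℝ) ^ B₁ * ((z : ℝ) ^ B₁) ^ 2 := by ring
    rw [e1]
    nlinarith [a2, b3]
  have c2 : ∑ y ∈ Icc 5 K, VV 32 z 1 0 y ≤
      4 * (K * Pr) + 6 * (z : ℝ) ^ (3 * B₁) + 2 * (z : ℝ) ^ B₂ :=
    le_of_mul_le_mul_left c1 (by linarith)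
  have c3 : K * Pr ≤ Real.exp (2 * C₀ + 84) * (K / Real.log z ^ 2) := by
    have := mul_le_mul_of_nonneg_left (prodb hN C₀ hM z hz) (by linarith : (0 : ℝ) ≤ K)
    refine this.trans (le_of_eq ?_)
    ring
  have c4 : ∀ j : ℕ, j + 2 ≤ 3 * B₁ + B₂ + 2 → (z : ℝ) ^ j ≤ K / Real.log z ^ 2 := by
    intro j hj
    rw [le_div_iff₀ (by positivity)]
    calc (z : ℝ) ^ j * Real.log z ^ 2 ≤ (z : ℝ) ^ j * (z : ℝ) ^ 2 :=
          mul_le_mul_of_nonneg_left (pow_le_pow_left₀ hlog.le hlogz 2) (by positivity)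
      _ = (z : ℝ) ^ (j + 2) := by rw [pow_add]
      _ ≤ (z : ℝ) ^ (3 * B₁ + B₂ + 2) := pow_le_pow_right₀ (by linarith) hj
      _ ≤ K := by exact_mod_cast hK
  have c5 := c4 (3 * B₁) (by omega)
  have c6 := c4 B₂ (by omega)
  calc ∑ y ∈ Icc 5 K, VV 32 z 1 0 y
      ≤ 4 * (K * Pr) + 6 * (z : ℝ) ^ (3 * B₁) + 2 * (z : ℝ) ^ B₂ := c2
    _ ≤ 4 * (Real.exp (2 * C₀ + 84) * (K / Real.log z ^ 2)) + 6 * (K / Real.log z ^ 2) +
        2 * (K / Real.log z ^ 2) := by linarith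
    _ = _ := by ring

end Pool.Agent.Helper96.LPB
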